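import Pool.Agent.W555.GL.Stm

set_option autoImplicit false

namespace Pool.Agent.W486.GL.Fam

open Cardinal Pool.Agent.W555.GL

lemma rk_mono_le {L : Type} [CompleteLattice L] {rk : L → ℕ} {r : ℕ} (h : RkData L rk r)
    {x y : L} (hxy : x ≤ y) : rk x ≤ rk y := by
  rcases hxy.eq_or_lt with rfl | hlt
  · exact le_rfl
  · exact (h.mono x y hlt).le

lemma rk_atom {L : Type} [CompleteLattice L] {rk : L → ℕ} {r : ℕ} (h : RkData L rk r)
    {a : L} (ha : IsAtom a) : rk a = 1 := by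
  have := h.atom ⊥ a ha (fun hle => ha.1 (le_bot_iff.mp hle))
  rw [bot_sup_eq, h.bot] at this
  simpa using this

lemma flag_finite {L : Type} [CompleteLattice L] {rk : L → ℕ} {r : ℕ} (h : RkData L rk r)
    {c : Set L} {lo hi : ℕ} (hc : IsFlag rk lo hi c) : c.Finite := by
  obtain ⟨hch, hr, -⟩ := hc
  refine Set.Finite.of_finite_image (f := rk) ((Set.finite_Iio hi).subset ?_) ?_
  · rintro _ ⟨x, hx, rfl⟩
    exact (hr x hx).2
  · intro x hx y hy hxy
    by_contra hne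
    rcases hch hx hy hne with hle | hle
    · exact absurd hxy (h.mono x y (lt_of_le_of_ne hle hne)).ne
    · exact absurd hxy.symm (h.mono y x (lt_of_le_of_ne hle (Ne.symm hne))).ne

lemma tower_flag {L : Type} [CompleteLattice L] {rk : L → ℕ} {r : ℕ} (h : RkData L rk r)
    (hta : StTowA) {g : L} (hg : IsAtom g) :
    ∃ c : Set L, IsFlag rk 2 r c ∧ ∀ x ∈ c, g ≤ x := by
  obtain ⟨Y, ⟨hY1, hY2⟩, hYg, -⟩ := hta L rk r h g ⊤ le_top
  rw [h.top] at hY1 hY2
  rw [rk_atom h hg] at hYg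
  refine ⟨{x | ∃ i, 2 ≤ i ∧ i < r ∧ Y i = x}, ⟨?_, ?_, ?_⟩, ?_⟩
  · rintro x ⟨i, hi, hir, rfl⟩ y ⟨j, hj, hjr, rfl⟩ -
    rcases le_total i j with hij | hij
    · exact Or.inl (hY2 i j hij hjr.le)
    · exact Or.inr (hY2 j i hij hir.le)
  · rintro x ⟨i, hi, hir, rfl⟩
    rw [hY1 i hir.le]
    exact ⟨hi, hir⟩
  · intro i hi hir
    exact ⟨Y i, ⟨i, hi, hir, rfl⟩, hY1 i hir.le⟩
  · rintro x ⟨i, hi, hir, rfl⟩
    rw [← hYg]
    exact hY2 1 i (by omega) hir.le

theorem fam (hta : StTowA) (htb : StTowB) (hr : StRec) (hrob : StRob) (hsp : StSp)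
    (hout : StOut) : StFam := by
  classical
  intro L _ rk r h hinf
  set κ : Cardinal.{0} := #{a : L | IsAtom a} with hκ
  have hκ0 : ℵ₀ ≤ κ := by
    rw [hκ, Cardinal.aleph0_le_mk_iff]
    exact hinf.to_subtype
  have hle : ∀ G : L, #(pts G) ≤ κ := fun G => Cardinal.mk_le_mk_of_subset (fun x hx => hx.1)
  have hex : ∃ n, ∃ F : L, rk F = n ∧ #(pts F) = κ := by
    refine ⟨rk ⊤, ⊤, rfl, ?_⟩
    have : pts (⊤ : L) = {a : L | IsAtom a} := by
      ext x
      simp [pts]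
    rw [this]
  obtain ⟨F, hFn, hFκ⟩ := Nat.find_spec hex
  have hmin : ∀ G : L, rk G < rk F → #(pts G) < κ := by
    intro G hG
    refine lt_of_le_of_ne (hle G) fun hEq => ?_
    rw [hFn] at hG
    exact Nat.find_min hex hG ⟨G, rfl, hEq⟩
  have hF2 : 2 ≤ rk F := by
    by_contra hlt
    push Not at hlt
    have hsub : pts F ⊆ {F} := by
      rintro a ⟨ha, haF⟩
      by_contra hne
      have h1 := h.mono a F (lt_of_le_of_ne haF hne)
      rw [rk_atom h ha] at h1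
      omega
    have : #(pts F) ≤ 1 := by
      calc #(pts F) ≤ #({F} : Set L) := Cardinal.mk_le_mk_of_subset hsub
        _ = 1 := Cardinal.mk_singleton F
    rw [hFκ] at this
    exact absurd (lt_of_lt_of_le Cardinal.one_lt_aleph0 hκ0) (not_lt.mpr this)
  rcases Nat.lt_or_ge (rk F) 3 with h3 | h3
  · -- rank two
    have hF : rk F = 2 := by omega
    obtain ⟨Z, hZ⟩ := (htb L rk r h F).1
    have hFinf : (pts F).Infinite := by
      rw [← Set.infinite_coe_iff, ← Cardinal.aleph0_le_mk_iff, hFκ]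
      exact hκ0
    obtain ⟨c, hc1, hc2⟩ := hsp L rk r h F Z hF hZ hFinf (by rw [hFκ]; exact hle Z)
    obtain ⟨c', hc'1, hc'2⟩ := hr L {f : L // IsAtom f ∧ ¬ f ≤ F ∧ ¬ f ≤ Z} κ hκ0
      (Cardinal.mk_le_mk_of_subset (s := {f : L | IsAtom f ∧ ¬ f ≤ F ∧ ¬ f ≤ Z})
        (fun x hx => hx.1))
      (fun f c => IsFlag rk 2 r c ∧ (∀ x ∈ c, f.1 ≤ x) ∧ Disjoint c (special F Z))
      (by
        rintro ⟨f, hf, hfF, hfZ⟩ S hS
        obtain ⟨c, h1, h2, h3, h4⟩ := hout L rk r h κ F Z hκ0 hF hZ hFκ f hf hfF hfZ S hS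
        exact ⟨c, ⟨h1, h2, h4⟩, flag_finite h h1, h3⟩)
    refine ⟨fun e => if he : IsAtom e ∧ ¬ e ≤ F ∧ ¬ e ≤ Z then c' ⟨e, he⟩ else c e, ?_, ?_⟩
    · intro e he
      by_cases h1 : IsAtom e ∧ ¬ e ≤ F ∧ ¬ e ≤ Z
      · simp only [h1, dif_pos]
        exact ⟨(hc'1 ⟨e, h1⟩).1, (hc'1 ⟨e, h1⟩).2.1⟩
      · simp only [h1, dif_neg, not_false_eq_true]
        have h2 : e ∈ pts F ∪ pts Z := by
          by_contra h2
          apply h1
          refine ⟨he, fun h3 => h2 (Or.inl ⟨he, h3⟩), fun h3 => h2 (Or.inr ⟨he, h3⟩)⟩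
        exact ⟨(hc1 e h2).1, (hc1 e h2).2.1⟩
    · intro e e' he he' hne
      have hmem : ∀ e, IsAtom e → ¬ (IsAtom e ∧ ¬ e ≤ F ∧ ¬ e ≤ Z) → e ∈ pts F ∪ pts Z := by
        intro e he h1
        by_contra h2
        apply h1
        refine ⟨he, fun h3 => h2 (Or.inl ⟨he, h3⟩), fun h3 => h2 (Or.inr ⟨he, h3⟩)⟩
      by_cases h1 : IsAtom e ∧ ¬ e ≤ F ∧ ¬ e ≤ Z <;>
        by_cases h2 : IsAtom e' ∧ ¬ e' ≤ F ∧ ¬ e' ≤ Z
      · simp only [h1, h2, dif_pos]
        exact hc'2 _ _ (fun hEq => hne (congrArg Subtype.val hEq))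
      · simp only [h1, h2, dif_pos, dif_neg, not_false_eq_true]
        exact (hc'1 ⟨e, h1⟩).2.2.mono_right (hc1 e' (hmem e' he' h2)).2.2
      · simp only [h1, h2, dif_pos, dif_neg, not_false_eq_true]
        exact ((hc'1 ⟨e', h2⟩).2.2.mono_right (hc1 e (hmem e he h1)).2.2).symm
      · simp only [h1, h2, dif_neg, not_false_eq_true]
        exact hc2 e (hmem e he h1) e' (hmem e' he' h2) hne
  · -- rank at least three
    obtain ⟨g, hg⟩ := hrob L rk r h κ F hκ0 hFκ h3 hmin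
    obtain ⟨cg, hcgf, hcg⟩ : ∃ cg : Set L, cg.Finite ∧
        (IsAtom g → IsFlag rk 2 r cg ∧ ∀ x ∈ cg, g ≤ x) := by
      by_cases hga : IsAtom g
      · obtain ⟨c, h1, h2⟩ := tower_flag h hta hga
        exact ⟨c, flag_finite h h1, fun _ => ⟨h1, h2⟩⟩
      · exact ⟨∅, Set.finite_empty, fun h => absurd h hga⟩
    obtain ⟨c', hc'1, hc'2⟩ := hr L {f : L // IsAtom f ∧ f ≠ g} κ hκ0
      (Cardinal.mk_le_mk_of_subset (s := {f : L | IsAtom f ∧ f ≠ g}) (fun x hx => hx.1))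
      (fun f c => IsFlag rk 2 r c ∧ (∀ x ∈ c, f.1 ≤ x) ∧ Disjoint c cg)
      (by
        rintro ⟨f, hf, hfg⟩ S hS
        have hScg : #(↥(S ∪ cg)) < κ := by
          refine lt_of_le_of_lt (Cardinal.mk_union_le S cg) (Cardinal.add_lt_of_lt hκ0 hS ?_)
          have := hcgf
          exact lt_of_lt_of_le (Cardinal.lt_aleph0_iff_set_finite.mpr hcgf) hκ0
        obtain ⟨c, h1, h2, h3⟩ := hg f hf hfg (S ∪ cg) hScg
        rw [Set.disjoint_union_right] at h3
        exact ⟨c, ⟨h1, h2, h3.2⟩, flag_finite h h1, h3.1⟩)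
    refine ⟨fun e => if he : IsAtom e ∧ e ≠ g then c' ⟨e, he⟩ else cg, ?_, ?_⟩
    · intro e he
      by_cases h1 : IsAtom e ∧ e ≠ g
      · dsimp only
        rw [dif_pos h1]
        exact ⟨(hc'1 ⟨e, h1⟩).1, (hc'1 ⟨e, h1⟩).2.1⟩
      · dsimp only
        rw [dif_neg h1]
        have h2 : e = g := by
          by_contra h2
          exact h1 ⟨he, h2⟩
        subst h2
        exact hcg he
    · intro e e' he he' hne
      by_cases h1 : IsAtom e ∧ e ≠ g <;> by_cases h2 : IsAtom e' ∧ e' ≠ g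
      · dsimp only
        rw [dif_pos h1, dif_pos h2]
        exact hc'2 _ _ (fun hEq => hne (congrArg Subtype.val hEq))
      · dsimp only
        rw [dif_pos h1, dif_neg h2]
        exact (hc'1 ⟨e, h1⟩).2.2
      · dsimp only
        rw [dif_neg h1, dif_pos h2]
        exact (hc'1 ⟨e', h2⟩).2.2.symm
      · exfalso
        apply hne
        have h3 : e = g := by
          by_contra h3
          exact h1 ⟨he, h3⟩
        have h4 : e' = g := by
          by_contra h4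
          exact h2 ⟨he', h4⟩
        rw [h3, h4]

end Pool.Agent.W486.GL.Fam
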